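import Pool.Agent.Helper42.SLC.Goals

/-! # Project SLC, packet NB1: transfer by the norm -/

namespace Pool.Agent.Helper79.SLC

open Pool.Agent.Helper42.SLC
open Pool.Agent.Helper17.SL
open Pool.Agent.Helper51.SigLeo Pool.Agent.Helper51.SixExp NumberField Module TensorProduct

universe u v w x y z

/-- The value of a unit. -/
def val {N : Type*} [Field N] (v : Additive (𝓞 N)ˣ) : N := ((v.toMul : 𝓞 N) : N)

theorem val_injective {N : Type*} [Field N] : Function.Injective (val (N := N)) := by
  intro a b h
  apply Additive.toMul.injective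
  apply Units.ext
  exact RingOfIntegers.ext h

theorem val_sum {N ι : Type*} [Field N] (s : Finset ι) (f : ι → Additive (𝓞 N)ˣ) :
    val (∑ i ∈ s, f i) = ∏ i ∈ s, val (f i) := by
  classical
  induction s using Finset.induction_on with
  | empty => simp [val]
  | insert i s hi ih =>
    rw [Finset.sum_insert hi, Finset.prod_insert hi, ← ih]
    unfold val
    simp

section

variable (K : Type u) [Field K] (H : Type v) [Field H] [NumberField H] (N : Type w)
  [Field N] [NumberField N] [Algebra K H] [Algebra K N] [Algebra H N] [IsScalarTower K H N]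
  [FiniteDimensional K N] [IsGalois K H] [IsGalois K N] [Fintype (N ≃ₐ[K] N)]
  [DecidableEq (H ≃ₐ[K] H)]

omit [NumberField H] [NumberField N] in
/-- The product over a fibre of the restriction. -/
theorem fibre_prod (h : H ≃ₐ[K] H) (x : N) :
    ∏ g : N ≃ₐ[K] N with AlgEquiv.restrictNormalHom H g = h, g x =
      algebraMap H N (h (Algebra.norm H x)) := by
  have : FiniteDimensional H N := FiniteDimensional.right K H N
  have : IsGalois H N := IsGalois.tower_top_of_isGalois K H N
  have hcomm : ∀ (g : N ≃ₐ[K] N) (y : H),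
      g (algebraMap H N y) = algebraMap H N (AlgEquiv.restrictNormalHom H g y) :=
    fun g y => (AlgEquiv.restrictNormal_commutes g H y).symm
  obtain ⟨g0, hg0⟩ := AlgEquiv.restrictNormalHom_surjective (F := K) (K₁ := H) N h
  have hinj : Function.Injective (algebraMap H N) := (algebraMap H N).injective
  rw [← hg0, ← hcomm, Algebra.norm_eq_prod_automorphisms, map_prod]
  symm
  refine Finset.prod_bij (fun (k : N ≃ₐ[H] N) _ => g0 * k.restrictScalars K) ?_ ?_ ?_ ?_
  · intro k _
    rw [Finset.mem_filter]
    refine ⟨Finset.mem_univ _, ?_⟩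
    apply AlgEquiv.ext
    intro y
    apply hinj
    rw [← hcomm, ← hcomm]
    show g0 (k (algebraMap H N y)) = _
    rw [k.commutes]
  · intro k _ k' _ hkk
    have h1 := mul_left_cancel hkk
    apply AlgEquiv.ext
    intro y
    exact DFunLike.congr_fun h1 y
  · intro g hg
    rw [Finset.mem_filter] at hg
    have hfix : ∀ y : H, (g0⁻¹ * g) (algebraMap H N y) = algebraMap H N y := by
      intro y
      show g0.symm (g (algebraMap H N y)) = _
      rw [AlgEquiv.symm_apply_eq, hcomm, hcomm, hg.2]
    refine ⟨AlgEquiv.ofRingEquiv (f := (g0⁻¹ * g).toRingEquiv) hfix, Finset.mem_univ _, ?_⟩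
    apply AlgEquiv.ext
    intro y
    show g0 (g0.symm (g y)) = g y
    rw [AlgEquiv.apply_symm_apply]
  · intro k _
    rfl

omit [NumberField H] [NumberField N] in
/-- The sum of a unit over a fibre of the restriction. -/
theorem fibre_sum (h : H ≃ₐ[K] H) (v : Additive (𝓞 N)ˣ) :
    ∑ g : N ≃ₐ[K] N with AlgEquiv.restrictNormalHom H g = h, unitsHom g v =
      inclUnits H N (unitsHom h (.ofMul (Units.map (RingOfIntegers.norm H) v.toMul))) := by
  apply val_injective
  rw [val_sum]
  exact fibre_prod K H N h (val v)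

end

theorem nb1 : S_NB1.{u, v, w, x} := by
  intro K _ H _ _ N _ _ _ _ _ _ _ _ _ _ _ A _ _ χ θ hcompat v
  classical
  refine ⟨.ofMul (Units.map (RingOfIntegers.norm H) v.toMul), fun ℓ => ?_⟩
  have hθ : ∀ g : N ≃ₐ[K] N, θ g = χ (AlgEquiv.restrictNormalHom H g) := fun g =>
    hcompat g _ fun y => (AlgEquiv.restrictNormal_commutes g H y).symm
  unfold tw
  rw [← Finset.sum_fiberwise Finset.univ (fun g : N ≃ₐ[K] N => AlgEquiv.restrictNormalHom H g)]
  refine Finset.sum_congr rfl fun h _ => ?_
  have h1 : ∀ g ∈ Finset.univ.filter (fun g : N ≃ₐ[K] N => AlgEquiv.restrictNormalHom H g = h),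
      ((θ g⁻¹ : Aˣ) : A) * ℓ (unitsHom g v) = ((χ h⁻¹ : Aˣ) : A) * ℓ (unitsHom g v) := by
    intro g hg
    rw [Finset.mem_filter] at hg
    rw [hθ, map_inv, hg.2]
  rw [Finset.sum_congr rfl h1, ← Finset.mul_sum, ← map_sum]
  have h2 := congrArg ℓ (fibre_sum K H N h v)
  congr 1

end Pool.Agent.Helper79.SLC
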